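import Pool.Agent.Q191.RT.Iso

/-!
# Compactly supported symplectomorphisms of `ℝ^{2n}` with a circle symmetry

Parts (a), (b) of Q1 of `MP_ec5dc5_gt`.  `SympCt n` is the group `G = Symp_ct(ℝ^{2n}, ω_st)` with its
usual topology, `E n` is `ℝ^{2n}` with the coordinates `(x, y)` and the maximum norm (definitions of
`Q170.SC.Defs`).

Write `z_i = x_i + √-1 y_i`.  The elements of `G` commuting with the rotations of `z_i` are those
which keep `|z_i|`.  They form a subgroup `H`, which has a contraction to the trivial group by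
endomorphisms: for `t ≥ 0` let `Λ_t` be the symplectic embedding of `{z_i ≠ 0}` which keeps the
argument of `z_i` and the other coordinates and replaces `|z_i|²` by `|z_i|² + t²`; then
`Λ_t⁻¹ f Λ_t` extends to an element `κ_t f` of `H` (this is the point of the proof, as `Λ_t` is
singular), `κ_0 f = f`, and `κ_t f = 1` for large `t`.
-/

set_option autoImplicit false

open scoped ContDiff
open Set Topology Q170.SC

namespace Pool.Agent.Results.MP_ec5dc5_gt.CircleSymmetry

/-- the number `|z_i|² = x_i² + y_i²` -/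
def radiusSq {n : ℕ} (i : Fin n) (z : E n) : ℝ := z.1 i ^ 2 + z.2 i ^ 2

/-- the point `z` with its complex coordinate `z_i = x_i + √-1 y_i` multiplied by `a + √-1 b` -/
def multiply {n : ℕ} (i : Fin n) (a b : ℝ) (z : E n) : E n :=
  (Function.update z.1 i (a * z.1 i - b * z.2 i), Function.update z.2 i (b * z.1 i + a * z.2 i))

/-- `f` commutes with the rotations of the complex coordinate `z_i` -/
def CommutesWithRotations {n : ℕ} (i : Fin n) (f : SympCt n) : Prop :=
  ∀ a b : ℝ, a ^ 2 + b ^ 2 = 1 → ∀ z, f.map (multiply i a b z) = multiply i a b (f.map z)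

/-- `f` keeps the function `|z_i|² ∘ A⁻¹` -/
def Keeps {n : ℕ} (i : Fin n) (A : Equiv.Perm (E n)) (f : SympCt n) : Prop :=
  ∀ z, radiusSq i (A⁻¹ (f.map z)) = radiusSq i (A⁻¹ z)

/-- `Φ` is a smooth family of elements of `G`, with parameter in the subset `O` of `P` -/
def SmoothFamily {n : ℕ} {P : Type} [NormedAddCommGroup P] [NormedSpace ℝ P] (O : Set P)
    (Φ : P → SympCt n) : Prop :=
  ContDiffOn ℝ ∞ (fun p : P × E n => (Φ p.1).map p.2) (O ×ˢ univ)

/-- the maps `κ t` are endomorphisms of the group `H` -/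
def AreEndomorphisms {n : ℕ} (H : Subgroup (SympCt n)) (κ : ℝ → SympCt n → SympCt n) : Prop :=
  ∀ t, ∀ f ∈ H, κ t f ∈ H ∧ ∀ g ∈ H, κ t (f * g) = κ t f * κ t g

/-- `κ_0 = id` and `κ_s ∘ κ_t = κ_r` for `r = √(s² + t²)` -/
def IsSemigroup {n : ℕ} (H : Subgroup (SympCt n)) (κ : ℝ → SympCt n → SympCt n) : Prop :=
  ∀ f ∈ H, κ 0 f = f ∧ ∀ s t, κ s (κ t f) = κ (√(s ^ 2 + t ^ 2)) f

/-- all `κ t` keep the supports in balls with centre 0, and `κ t f = 1` if `f` has support in such a
ball of radius `R < |t|` -/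
def ShrinksToOne {n : ℕ} (H : Subgroup (SympCt n)) (κ : ℝ → SympCt n → SympCt n) : Prop :=
  ∀ f ∈ H, ∀ R : ℝ, SuppIn (Metric.closedBall 0 R) f.perm →
    ∀ t, SuppIn (Metric.closedBall 0 R) (κ t f).perm ∧ (R < |t| → κ t f = 1)

/-- `κ` takes smooth families in `H`, with parameters in an open set of a finite dimensional space,
to smooth families. -/
def KeepsFamilies {n : ℕ} (H : Subgroup (SympCt n)) (κ : ℝ → SympCt n → SympCt n) : Prop :=
  ∀ (P : Type) [NormedAddCommGroup P] [NormedSpace ℝ P] [FiniteDimensional ℝ P]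
    (O : Set P) (Φ : P → SympCt n), IsOpen O → (∀ p ∈ O, Φ p ∈ H) → SmoothFamily O Φ →
    SmoothFamily ((univ : Set ℝ) ×ˢ O) (fun q : ℝ × P => κ q.1 (Φ q.2))

/-- `κ` is a contraction of the subgroup `H` of `G` to the identity by endomorphisms of `H`. -/
def IsContraction {n : ℕ} (H : Subgroup (SympCt n)) (κ : ℝ → SympCt n → SympCt n) : Prop :=
  AreEndomorphisms H κ ∧ IsSemigroup H κ ∧ ShrinksToOne H κ ∧ KeepsFamilies H κ

/-- `f` is joined to the identity by a smooth isotopy in `G` with one compact support which keeps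
the function `|z_i|² ∘ A⁻¹`. -/
def IsotopicToOne {n : ℕ} (i : Fin n) (A : Equiv.Perm (E n)) (f : SympCt n) : Prop :=
  ∃ (K : Set (E n)) (Φ : ℝ → SympCt n), IsCompact K ∧
    ContDiff ℝ ∞ (fun p : ℝ × E n => (Φ p.1).map p.2) ∧ (∀ t, SuppIn K (Φ t).perm) ∧
    (∀ t, Keeps i A (Φ t)) ∧ Φ 0 = f ∧ Φ 1 = 1

/-- the elements of `G` which keep a function `|z_i|² ∘ A⁻¹`, `A` a symplectic diffeomorphism -/
def Symmetric (n : ℕ) : Set (SympCt n) := {f | ∃ i A, IsSymp A ∧ Keeps i A f}

/-- (1) An element of `G` commutes with the rotations of `z_i` if and only if it keeps `|z_i|`. -/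
def RotationsAndRadius (n : ℕ) : Prop :=
  ∀ (i : Fin n) (f : SympCt n), CommutesWithRotations i f ↔ Keeps i 1 f

/-- (2) The elements with this property form a subgroup `H`, which has a contraction to the identity
by endomorphisms. -/
def ContractibleSubgroups (n : ℕ) : Prop :=
  ∀ i : Fin n, ∃ (H : Subgroup (SympCt n)) (κ : ℝ → SympCt n → SympCt n),
    (∀ f, f ∈ H ↔ CommutesWithRotations i f) ∧ IsContraction H κ

/-- (3) If `f` in `G` keeps `|z_i|² ∘ A⁻¹`, where `A` is any symplectic diffeomorphism of `ℝ^{2n}`,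
then `f` is joined to the identity by a smooth isotopy in `G` through maps with the same property. -/
def SymmetricIsotopies (n : ℕ) : Prop :=
  ∀ (i : Fin n) (A : Equiv.Perm (E n)), IsSymp A → ∀ f : SympCt n, Keeps i A f →
    IsotopicToOne i A f

/-- (1) An element of `G` commutes with the rotations of `z_i` if and only if it keeps `|z_i|`.

(2) The elements with this property form a subgroup `H`, which has a contraction to the identity by
endomorphisms.

(3) If `f` in `G` keeps `|z_i|² ∘ A⁻¹`, where `A` is any symplectic diffeomorphism of `ℝ^{2n}` (so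
that `f` commutes with the circle action conjugate by `A` to the rotations of `z_i`), then `f` is
joined to the identity by a smooth isotopy in `G` through maps with the same property.

(4) The maps as in (3), for all `i` and `A`, generate a normal subgroup of `G`, which is contained in
the path component of the identity. -/
theorem result (n : ℕ) :
    RotationsAndRadius n ∧ ContractibleSubgroups n ∧ SymmetricIsotopies n ∧
    (Subgroup.closure (Symmetric n)).Normal ∧
    ∀ f ∈ Subgroup.closure (Symmetric n), Joined 1 f := by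
  have h3 : SymmetricIsotopies n := fun i A hA f hf => Q191.RT.exists_isotopy_A hA hf
  refine ⟨fun i f => Q191.RT.comm_iff_rad f, fun i => ⟨Q191.RT.Inv i, Q191.RT.ka i,
    fun f => Iff.rfl, ?_, ?_, ?_, ?_⟩, h3, ?_, ?_⟩
  · exact fun t f hf => ⟨Q191.RT.ka_mem i hf, fun g hg => Q191.RT.ka_mul i hf hg⟩
  · exact fun f hf => ⟨Q191.RT.ka_zero i hf, fun s t => Q191.RT.ka_ka i s t hf⟩
  · exact fun f hf R hR t => ⟨Q191.RT.ka_supp i hf hR, Q191.RT.ka_trivial i hf hR⟩
  · intro P _ _ _ O Φ hO hm hΦ
    exact Q191.RT.ka_family i hO Φ hm hΦ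
  · refine ⟨fun f hf g => ?_⟩
    refine Subgroup.closure_induction (p := fun f _ => g * f * g⁻¹ ∈ Subgroup.closure (Symmetric n))
      ?_ ?_ ?_ ?_ hf
    · rintro f ⟨i, A, hA, hf⟩
      refine Subgroup.subset_closure ⟨i, g.perm * A, g.2.1.mul hA, fun z => ?_⟩
      have h5 := hf (g⁻¹.map z)
      have h6 : (g.perm * A)⁻¹ ((g * f * g⁻¹).map z) = A⁻¹ (f.map (g⁻¹.map z)) := by
        show A⁻¹ (g⁻¹.map (g.map (f.map (g⁻¹.map z)))) = _
        rw [Q191.SY.inv_map_map]
      rw [h6, h5]
      rfl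
    · have h5 : g * 1 * g⁻¹ = 1 := by group
      rw [h5]
      exact Subgroup.one_mem _
    · intro x y _ _ hx hy
      have h5 : g * (x * y) * g⁻¹ = g * x * g⁻¹ * (g * y * g⁻¹) := by group
      rw [h5]
      exact Subgroup.mul_mem _ hx hy
    · intro x _ hx
      have h5 : g * x⁻¹ * g⁻¹ = (g * x * g⁻¹)⁻¹ := by group
      rw [h5]
      exact Subgroup.inv_mem _ hx
  · intro f hf
    have h4 : Subgroup.closure (Symmetric n) ≤ Q191.SY.G0 n := by
      rw [Subgroup.closure_le]
      rintro g ⟨i, A, hA, hg⟩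
      obtain ⟨K, Φ, k1, k2, k3, -, k5, k6⟩ := h3 i A hA g hg
      exact Q191.SY.si_symm ⟨K, k1, Φ, k2, k3, k5, k6⟩
    exact (Q191.SY.joined_iff 1 f).2 (h4 hf)

end Pool.Agent.Results.MP_ec5dc5_gt.CircleSymmetry
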