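import Pool.Agent.Q191.SY.Str

/-!
# The group of components of the compactly supported symplectomorphism group of `ℝ^{2n}`

Part (b) of Q1 of `MP_ec5dc5_gt`.  `SympCt n` is the group `G = Symp_ct(ℝ^{2n}, ω_st)` with its usual
topology (the direct limit of the `C^∞` topologies of the subgroups of the elements supported in a
compact set), and `SmoothIsotopic f g` means that `f` and `g` are joined by a smooth isotopy in `G`
with supports in one compact set (definitions of `Q170.SC.Defs`).  `Joined f g` (Mathlib) means that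
`f` and `g` lie in the same path component of `G`.

The results hold for every `n`.  Nothing is known about `π₀(G)` for `n > 2` besides its
countability.
-/

set_option autoImplicit false

open scoped ContDiff
open Set Topology Q170.SC

namespace Pool.Agent.Results.MP_ec5dc5_gt.ComponentGroup

/-- `f` and its inverse are Lipschitz maps with the constant `L` -/
def BiLipschitz {n : ℕ} (L : NNReal) (f : SympCt n) : Prop :=
  LipschitzWith L f.map ∧ LipschitzWith L f⁻¹.map

/-- `h` is `ε`-close to `g`, and `h⁻¹` to `g⁻¹`, uniformly on `ℝ^{2n}` -/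
def Close {n : ℕ} (ε : ℝ) (h g : SympCt n) : Prop :=
  ∀ z, dist (h.map z) (g.map z) < ε ∧ dist (h⁻¹.map z) (g⁻¹.map z) < ε

/-- a homomorphism of `G` to the discrete group `ℚ/ℤ` which is locally constant -/
def IsCharacter {n : ℕ} (χ : SympCt n →* Multiplicative (AddCircle (1 : ℚ))) : Prop :=
  IsLocallyConstant χ

/-- The path components of `G` are the smooth isotopy classes, and they are open. -/
def SmoothComponents (n : ℕ) : Prop :=
  (∀ f g : SympCt n, Joined f g ↔ SmoothIsotopic f g) ∧ ∀ f : SympCt n, IsOpen {g | Joined f g}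

/-- The component of the identity is a normal subgroup, with countable commutative quotient. -/
def CountableAbelian (n : ℕ) : Prop :=
  ∃ G₀ : Subgroup (SympCt n), G₀.Normal ∧ (∀ f g, Joined f g ↔ f⁻¹ * g ∈ G₀) ∧
    commutator (SympCt n) ≤ G₀ ∧ Countable (SympCt n ⧸ G₀)

/-- For all `f, g`, every nonempty open set `B` and every `ε > 0` there is an `h` in the component of
`f` which is equal to `g` off `B` and `ε`-close to `g`. -/
def DenseComponents (n : ℕ) : Prop :=
  ∀ (f g : SympCt n) (B : Set (E n)), IsOpen B → B.Nonempty → ∀ ε : ℝ, 0 < ε →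
    ∃ h, Joined f h ∧ (∀ z, z ∉ B → h.map z = g.map z) ∧ Close ε h g

/-- the derivative of `f` at the point `z`, a (linear) map of `ℝ^{2n}` -/
noncomputable def derivative {n : ℕ} (f : SympCt n) (z : E n) : E n → E n :=
  fun u => fderiv ℝ f.map z u

/-- all derivatives of `f` lie in the set `L` of maps -/
def DerivIn {n : ℕ} (L : Set (E n → E n)) (f : SympCt n) : Prop := ∀ z, derivative f z ∈ L

/-- `L` contains the identity and the inverses of its elements. -/
def HasInverses {n : ℕ} (L : Set (E n → E n)) : Prop :=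
  id ∈ L ∧ ∀ A ∈ L, ∀ B, A ∘ B = id → B ∘ A = id → B ∈ L

/-- `H` consists of the elements whose component contains an element with the property `P`. -/
def IsHull {n : ℕ} (P : SympCt n → Prop) (H : Subgroup (SympCt n)) : Prop :=
  ∀ f, f ∈ H ↔ ∃ h, Joined f h ∧ P h

/-- If `L` contains the identity and the inverses of its elements, then the elements whose component
contains an element with all derivatives in `L` form a subgroup, and this element may be chosen with
support in any nonempty open set, and close to the identity. -/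
def DerivativeSubgroups (n : ℕ) : Prop :=
  ∀ L : Set (E n → E n), HasInverses L → ∃ H : Subgroup (SympCt n), IsHull (DerivIn L) H ∧
    ∀ f ∈ H, ∀ B : Set (E n), IsOpen B → B.Nonempty → ∀ ε : ℝ, 0 < ε →
      ∃ h, Joined f h ∧ DerivIn L h ∧ SuppIn B h.perm ∧ Close ε h 1

/-- `π₀(G)` is finitely generated: every element is joined to a product of elements of a finite set
and of their inverses. -/
def FinitelyGenerated (n : ℕ) : Prop :=
  ∃ S : Set (SympCt n), S.Finite ∧ ∀ f, ∃ h ∈ Subgroup.closure S, Joined f h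

/-- For `L ≥ 1` the elements whose component contains an `L`-bi-Lipschitz map form a subgroup `H_L`;
these subgroups increase, their union is `G`, and if `π₀(G)` is finitely generated, then `H_L = G`
for some `L`. -/
def LipschitzSubgroups (n : ℕ) : Prop :=
  ∃ H : NNReal → Subgroup (SympCt n), (∀ L, 1 ≤ L → IsHull (BiLipschitz L) (H L)) ∧
    (∀ L M, 1 ≤ L → L ≤ M → H L ≤ H M) ∧ (∀ f, ∃ L, 1 ≤ L ∧ f ∈ H L) ∧
    (FinitelyGenerated n → ∃ L, 1 ≤ L ∧ H L = ⊤)

/-- Different components are separated by locally constant homomorphisms to `ℚ/ℤ`. -/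
def SeparatedByCharacters (n : ℕ) : Prop :=
  ∀ f g : SympCt n, ¬ Joined f g → ∃ χ : SympCt n →* Multiplicative (AddCircle (1 : ℚ)),
    IsCharacter χ ∧ χ f ≠ χ g

/-- Some `ε`-small elements supported in `B` all lie in the component of the identity. -/
def LocallyConnected (n : ℕ) : Prop :=
  ∃ ε : ℝ, 0 < ε ∧ ∃ B : Set (E n), IsOpen B ∧ B.Nonempty ∧ ∀ f : SympCt n,
    SuppIn B f.perm → Close ε f 1 → Joined 1 f

/-- All locally constant homomorphisms to `ℚ/ℤ` are trivial. -/
def NoCharacters (n : ℕ) : Prop :=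
  ∀ χ : SympCt n →* Multiplicative (AddCircle (1 : ℚ)), IsCharacter χ → ∀ f, χ f = 1

open Pool.Agent.Q191.SY

theorem biLip_iff {n : ℕ} (L : NNReal) (f : SympCt n) : BiLipschitz L f ↔
    ∀ z, ‖fderiv ℝ f.map z‖ ≤ L ∧ ‖fderiv ℝ f⁻¹.map z‖ ≤ L := by
  constructor
  · rintro ⟨h1, h2⟩ z
    exact ⟨norm_fderiv_le_of_lipschitz ℝ h1, norm_fderiv_le_of_lipschitz ℝ h2⟩
  · intro h
    refine ⟨?_, ?_⟩
    · exact lipschitzWith_of_nnnorm_fderiv_le ((map_smooth f).differentiable (by simp))
        fun z => (h z).1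
    · exact lipschitzWith_of_nnnorm_fderiv_le ((map_smooth f⁻¹).differentiable (by simp))
        fun z => (h z).2

/-- the linear maps which, with their inverse, have norm at most `L` -/
def Bd (n : ℕ) (L : ℝ) : Set (E n →L[ℝ] E n) :=
  {A | ‖A‖ ≤ L ∧ ∃ B, A * B = 1 ∧ B * A = 1 ∧ ‖B‖ ≤ L}

theorem biLip_iff' {n : ℕ} (L : NNReal) (f : SympCt n) : BiLipschitz L f ↔
    ∀ z, fderiv ℝ f.map z ∈ Bd n L := by
  rw [biLip_iff]
  constructor
  · intro h z
    obtain ⟨e1, e2⟩ := deriv_inv f (f.map z)
    rw [inv_map_map] at e1 e2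
    exact ⟨(h z).1, _, e1, e2, (h _).2⟩
  · intro h z
    refine ⟨(h z).1, ?_⟩
    obtain ⟨e1, e2⟩ := deriv_inv f z
    obtain ⟨B, b1, b2, b3⟩ := (h (f⁻¹.map z)).2
    have h3 : fderiv ℝ f⁻¹.map z = B := by
      calc fderiv ℝ f⁻¹.map z = fderiv ℝ f⁻¹.map z * (fderiv ℝ f.map (f⁻¹.map z) * B) := by
            rw [b1, mul_one]
        _ = B := by rw [← mul_assoc, e2, one_mul]
    rw [h3]
    exact b3

theorem one_mem_Bd (n : ℕ) {L : ℝ} (hL : 1 ≤ L) : (1 : E n →L[ℝ] E n) ∈ Bd n L := by
  have h : ‖(1 : E n →L[ℝ] E n)‖ ≤ L := ContinuousLinearMap.norm_id_le.trans hL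
  exact ⟨h, 1, mul_one _, mul_one _, h⟩

theorem inv_mem_Bd (n : ℕ) (L : ℝ) : ∀ A ∈ Bd n L, ∀ B, A * B = 1 → B * A = 1 → B ∈ Bd n L := by
  rintro A ⟨h1, C, h2, h3, h4⟩ B hB1 hB2
  have h5 : B = C := by
    calc B = B * (A * C) := by rw [h2, mul_one]
      _ = C := by rw [← mul_assoc, hB2, one_mul]
  exact ⟨h5 ▸ h4, A, hB2, hB1, h1⟩

/-- an element of `G` is bi-Lipschitz -/
theorem exists_biLip {n : ℕ} (f : SympCt n) : ∃ L : NNReal, 1 ≤ L ∧ BiLipschitz L f := by
  obtain ⟨K, hK, hf⟩ := f.2.2
  obtain ⟨C, hC0, hC⟩ := exists_bound hK f.2.1 hf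
  obtain ⟨D, hD0, hD⟩ := exists_bound hK f.2.1.inv hf.inv
  refine ⟨⟨max 1 (max C D), by positivity⟩, ?_, ?_⟩
  · exact NNReal.coe_le_coe.1 (le_max_left _ _)
  · rw [biLip_iff]
    intro z
    exact ⟨(hC z).trans ((le_max_left _ _).trans (le_max_right _ _)),
      (hD z).trans ((le_max_right _ _).trans (le_max_right _ _))⟩

theorem biLip_mono {n : ℕ} {L M : NNReal} (h : L ≤ M) {f : SympCt n} (hf : BiLipschitz L f) :
    BiLipschitz M f := ⟨hf.1.weaken h, hf.2.weaken h⟩

/-- **The group of components of `G = Symp_ct(ℝ^{2n})`, for every `n`.**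

(1) The path components of `G` are the smooth isotopy classes, and they are open.

(2) The component `G₀` of the identity is a normal subgroup, and `π₀(G) = G/G₀` is a countable
commutative group.

(3) For all `f, g` in `G`, every nonempty open set `B` and every `ε > 0` there is an `h` in the
component of `f` which is equal to `g` off `B` and `ε`-close to `g` everywhere (with the inverses).
In particular every component is dense in `G` for the `C⁰` topology.

(4) Let `L` be any set of (linear) maps which contains the identity and the inverses of its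
elements.  Then the elements of `G` whose component contains an element with all derivatives in `L`
form a subgroup, and such an element may be chosen with support in any given nonempty open set and
as close to the identity as one likes.

(5) In particular, for `L ≥ 1` the elements whose component contains an `L`-bi-Lipschitz map form a
subgroup `H_L`; these subgroups increase, their union is `G`, and if `π₀(G)` is finitely generated,
then `H_L = G` for some `L`.

(6) Different components are separated by locally constant homomorphisms of `G` to `ℚ/ℤ`.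

(7) The following are equivalent: `G` is path connected; for some `ε > 0` and some nonempty open set
`B` every `ε`-small element of `G` supported in `B` lies in the component of the identity; every
locally constant homomorphism of `G` to `ℚ/ℤ` is trivial. -/
theorem result (n : ℕ) :
    SmoothComponents n ∧ CountableAbelian n ∧ DenseComponents n ∧ DerivativeSubgroups n ∧
    LipschitzSubgroups n ∧ SeparatedByCharacters n ∧
    (PathConnectedSpace (SympCt n) ↔ LocallyConnected n) ∧
    (PathConnectedSpace (SympCt n) ↔ NoCharacters n) := by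
  have hsub0 : ∀ L : Set (E n →L[ℝ] E n), 1 ∈ L →
      (∀ A ∈ L, ∀ B, A * B = 1 → B * A = 1 → B ∈ L) → ∃ H : Subgroup (SympCt n),
        (∀ f, f ∈ H ↔ ∃ h, Joined f h ∧ ∀ z, fderiv ℝ h.map z ∈ L) ∧
        ∀ f ∈ H, ∀ B : Set (E n), IsOpen B → B.Nonempty → ∀ ε : ℝ, 0 < ε →
          ∃ h, Joined f h ∧ (∀ z, fderiv ℝ h.map z ∈ L) ∧ SuppIn B h.perm ∧ Close ε h 1 := by
    intro L h1 h2
    refine ⟨sub L h1 h2, fun f => ?_, ?_⟩
    · simp only [joined_iff]
      rfl
    · rintro f ⟨g, a1, a2⟩ B hB hne ε hε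
      obtain ⟨h, b1, b2, b3, b4⟩ := exists_small g B hB hne hε
      refine ⟨h, (joined_iff _ _).2 (si_trans a1 b1), fun z => ?_, b2, b3⟩
      obtain ⟨w, hw⟩ := b4 z
      rw [hw]
      exact a2 w
  have hsub : DerivativeSubgroups n := by
    rintro L ⟨h1, h2⟩
    exact hsub0 {A | (fun u => A u) ∈ L} h1 fun A hA B hAB hBA =>
      h2 _ hA _ (funext fun u => DFunLike.congr_fun hAB u)
        (funext fun u => DFunLike.congr_fun hBA u)
  have h12 : PathConnectedSpace (SympCt n) → LocallyConnected n := by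
    intro h
    exact ⟨1, one_pos, univ, isOpen_univ, univ_nonempty, fun f _ _ => h.joined 1 f⟩
  have h23 : LocallyConnected n → NoCharacters n := by
    rintro ⟨ε, hε, B, hB, hne, h⟩ χ hχ f
    obtain ⟨k, h1, h2, h3⟩ := exists_near f 1 B hB hne hε
    have h4 : Joined 1 k := h k (fun z hz => h2 z hz) h3
    rw [eq_of_si hχ h1, ← eq_of_si hχ ((joined_iff _ _).1 h4), map_one]
  have h31 : NoCharacters n → PathConnectedSpace (SympCt n) := by
    intro h
    refine ⟨⟨1⟩, fun f g => ?_⟩
    by_contra hfg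
    rw [joined_iff] at hfg
    obtain ⟨χ, h1, h2⟩ := exists_char hfg
    exact h2 (by rw [h χ h1 f, h χ h1 g])
  refine ⟨⟨joined_iff, fun f => ?_⟩,
    ⟨G0 n, inferInstance, fun f g => ?_, ?_, countable_quot n⟩,
    fun f g B hB hne ε hε => ?_, hsub, ?_, fun f g h => ?_, ⟨h12, fun h => h31 (h23 h)⟩,
    ⟨fun h => h23 (h12 h), h31⟩⟩
  · simp only [joined_iff]
    exact isOpen_class f
  · rw [joined_iff]
    exact si_iff f g
  · rw [commutator_def, Subgroup.commutator_le]
    intro f _ g _
    have h := comm_mem g⁻¹ f⁻¹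
    have e : (g⁻¹ * f⁻¹)⁻¹ * (f⁻¹ * g⁻¹) = f * g * f⁻¹ * g⁻¹ := by group
    rw [e] at h
    exact h
  · obtain ⟨h, h1, h2, h3⟩ := exists_near f g B hB hne hε
    exact ⟨h, (joined_iff _ _).2 h1, h2, h3⟩
  · choose! H hH using fun (L : NNReal) (hL : 1 ≤ L) =>
      hsub0 (Bd n L) (one_mem_Bd n (by exact_mod_cast hL)) (inv_mem_Bd n L)
    have hH' : ∀ L, 1 ≤ L → IsHull (BiLipschitz L) (H L) := by
      intro L hL f
      rw [(hH L hL).1 f]
      simp only [biLip_iff']
    have hmono : ∀ L M, 1 ≤ L → L ≤ M → H L ≤ H M := by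
      intro L M hL hLM f hf
      obtain ⟨h, h1, h2⟩ := (hH' L hL f).1 hf
      exact (hH' M (hL.trans hLM) f).2 ⟨h, h1, biLip_mono hLM h2⟩
    have hun : ∀ f, ∃ L, 1 ≤ L ∧ f ∈ H L := by
      intro f
      obtain ⟨L, hL, h1⟩ := exists_biLip f
      exact ⟨L, hL, (hH' L hL f).2 ⟨f, Joined.refl f, h1⟩⟩
    refine ⟨H, hH', hmono, hun, ?_⟩
    rintro ⟨S, hS, hgen⟩
    choose M hM1 hM2 using hun
    obtain ⟨L, hL1, hL⟩ : ∃ L : NNReal, 1 ≤ L ∧ ∀ s ∈ S, M s ≤ L := by
      refine ⟨max 1 (hS.toFinset.sup M), le_max_left _ _, fun s hs => ?_⟩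
      exact (Finset.le_sup (f := M) (hS.mem_toFinset.2 hs)).trans (le_max_right _ _)
    have hcl : Subgroup.closure S ≤ H L := by
      rw [Subgroup.closure_le]
      exact fun s hs => hmono _ _ (hM1 s) (hL s hs) (hM2 s)
    refine ⟨L, hL1, eq_top_iff.2 fun f _ => ?_⟩
    obtain ⟨h, h1, h2⟩ := hgen f
    obtain ⟨k, k1, k2⟩ := (hH' L hL1 h).1 (hcl h1)
    exact (hH' L hL1 f).2 ⟨k, h2.trans k1, k2⟩
  · rw [joined_iff] at h
    exact exists_char h

end Pool.Agent.Results.MP_ec5dc5_gt.ComponentGroup
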