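import Pool.Agent.Q170.SC.Count

/-!
# `π₀(Symp_ct(ℝ^{2n}))` is countable

Part (c) of Q1 of `MP_ec5dc5_gt`. The group `G = Symp_ct(ℝ^{2n}, ω_st)` is `Q170.SC.SympCt n`, the
subgroup of the group of bijections of `ℝ^{2n}` formed by the diffeomorphisms which preserve the
standard symplectic form and are the identity off some compact set. Its topology is the finest one
for which the inclusions of the subgroups `G_K`, `K` compact, are continuous, each `G_K` having the
`C^∞` topology (compact-open topology for the map and all its derivatives).

We show that for every `n` (so in particular for every `n > 2`) a countable subset of `G` meets
every class of the relation of being joined by a smooth isotopy of symplectomorphisms supported in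
one compact set, and that `G` has countably many path components.

Proof. A symplectomorphism `φ` whose derivative is everywhere `1/4`-close to the identity is joined
to the identity by an explicit isotopy with the same support: let `Q` be the inverse of
`(x, y) ↦ (x, φ₂(x, y))`. Then `φ ∘ Q` changes only the coordinate `x` and `Q` changes only the
coordinate `y`, and with `A_s = id + s (Q - id)` and `B_s = id + s (φ ∘ Q - id)` the maps
`B_s ∘ A_s⁻¹` are symplectic, because `B_s^* ω - A_s^* ω` is linear in `s` and vanishes at `s = 1`.
Further, `G_K` with the `C¹` topology is second countable, hence separable, and right translations
by elements of `G_K` are Lipschitz for the `C¹` distance.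
-/

set_option autoImplicit false

namespace Pool.Agent.Results.MP_ec5dc5_gt.CountableComponents

open Q170.SC

/-- For every `n`, the group `G` of compactly supported symplectomorphisms of `ℝ^{2n}` contains a
countable subset `S` such that every element of `G` is joined to an element of `S` by a smooth
isotopy of symplectomorphisms supported in one compact set, and `G` has countably many path
components. -/
theorem result (n : ℕ) :
    (∃ S : Set (SympCt n), S.Countable ∧ ∀ φ : SympCt n, ∃ s ∈ S, SmoothIsotopic s φ) ∧
      Countable (ZerothHomotopy (SympCt n)) :=
  ⟨exists_countable, countable_zerothHomotopy⟩

end Pool.Agent.Results.MP_ec5dc5_gt.CountableComponents
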