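import Pool.Agent.Q196.SL.Main
import Pool.Agent.Q170.SC.Count

/-!
# Canonical isotopies of compactly supported symplectomorphisms of `ℝ^{2n}`

Parts (a) and (b) of Q1 of `MP_ec5dc5_gt`. `SympCt n` is the group `G = Symp_ct(ℝ^{2n}, ω_st)`, with
its usual topology, and `SmoothIsotopic` means joined by a smooth isotopy in `G` with supports in
one compact set (definitions of `Q170.SC.Defs`).

Let `β` be a linear map of `ℝ^{2n}` with `β + β^ω = 1`, where `β^ω` is the adjoint for the
symplectic form; for instance `β = 1/2`, or the projection `(x, y) ↦ (x, 0)`.  `Immersed β φ` says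
that all the maps `z ↦ z + s β (φ z - z)`, `0 ≤ s ≤ 1`, are immersions.  For `β = 1/2` this is the
first half of the straight line homotopy from the identity to `φ`.

If `x_s` denotes these maps and `y_s (z) = φ z - s (1 - β) (φ z - z)`, then
`ω (dy_s u, dy_s v) = ω (dx_s u, dx_s v)`, so that `y_s` is an immersion if `x_s` is one, both are
diffeomorphisms, as they are the identity near infinity, and `y_s ∘ x_s⁻¹` is a symplectomorphism,
equal to `φ` for `s = 0` and to the identity for `s = 1`.
-/

set_option autoImplicit false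

namespace Pool.Agent.Results.MP_ec5dc5_gt.StraightLineIsotopy

open Q170.SC
open scoped ContDiff
open Set

/-- all the maps `z ↦ z + s β (φ z - z)`, `0 ≤ s ≤ 1`, are immersions -/
def Immersed {n : ℕ} (β : E n →L[ℝ] E n) (φ : SympCt n) : Prop :=
  ∀ s : ℝ, 0 ≤ s → s ≤ 1 → ∀ z u : E n,
    fderiv ℝ (fun z => z + s • β (φ.map z - z)) z u = 0 → u = 0

/-- `Φ` is a smooth family of elements of `G`, with parameter in the subset `O` of `P` -/
def SmoothFamily {n : ℕ} {P : Type} [NormedAddCommGroup P] [NormedSpace ℝ P] (O : Set P)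
    (Φ : P → SympCt n) : Prop :=
  ContDiffOn ℝ ∞ (fun p : P × E n => (Φ p.1).map p.2) (O ×ˢ univ)

/-- `c` is a contraction of the set of all `φ` with `Immersed β φ` inside itself to the identity,
which keeps supports and takes smooth families to smooth families. -/
structure Contraction {n : ℕ} (β : E n →L[ℝ] E n) (c : ℝ → SympCt n → SympCt n) : Prop where
  zero : ∀ φ, c 0 φ = 1
  id : ∀ t, c t 1 = 1
  one : ∀ φ, Immersed β φ → c 1 φ = φ
  inside : ∀ φ, Immersed β φ → ∀ t, Immersed β (c t φ)
  supp : ∀ (K : Set (E n)) (φ : SympCt n) (t : ℝ), SuppIn K φ.perm → SuppIn K (c t φ).perm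
  family : ∀ (P : Type) [NormedAddCommGroup P] [NormedSpace ℝ P] [CompleteSpace P] (O : Set P)
    (Φ : P → SympCt n), IsOpen O → SmoothFamily O Φ → (∀ p ∈ O, Immersed β (Φ p)) →
    SmoothFamily ((univ : Set ℝ) ×ˢ O) (fun q : ℝ × P => c q.1 (Φ q.2))

/-- `φ` and `ψ` are smoothly isotopic in `G`, and lie in the same path component of `G`. -/
def Connected {n : ℕ} (φ ψ : SympCt n) : Prop := SmoothIsotopic φ ψ ∧ Joined φ ψ

/-- `β + β^ω = 1`, where `β^ω` is the adjoint for the symplectic form -/
def Splits {n : ℕ} (β : E n →L[ℝ] E n) : Prop :=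
  ∀ u v : E n, omega (β u) v + omega u (β v) = omega u v

/-- The first half `(1 - t) ψ + t φ`, `0 ≤ t ≤ 1/2`, of the straight line homotopy from `ψ` to `φ`
consists of immersions. -/
def HalfStraight {n : ℕ} (ψ φ : SympCt n) : Prop :=
  ∀ t : ℝ, 0 ≤ t → t ≤ 1 / 2 → ∀ z u : E n,
    fderiv ℝ (fun z => (1 - t) • ψ.map z + t • φ.map z) z u = 0 → u = 0

/-- The `n × n` block `∂φ_x/∂x` of the derivative of `φ` has no real eigenvalue `≤ 0` at any
point. -/
def GoodBlock {n : ℕ} (φ : SympCt n) : Prop :=
  ∀ (z : E n) (l : ℝ) (a : Fin n → ℝ), l ≤ 0 → a ≠ 0 → (fderiv ℝ φ.map z (a, 0)).1 ≠ l • a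

/-- The derivative of `φ` has distance less than two from the identity (in the operator norm of the
maximum norm) at every point. -/
def Near {n : ℕ} (φ : SympCt n) : Prop :=
  ∀ z : E n, ‖fderiv ℝ φ.map z - ContinuousLinearMap.id ℝ (E n)‖ < 2

/-- Let `β` be linear with `β + β^ω = 1`.

(1) The set of all `φ` in `G` with `Immersed β φ` has a canonical contraction `c` to the identity
inside itself: it keeps supports, and the contraction of a smooth family (with parameters in an
open set of a Banach space) is a smooth family.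

(2) If `Immersed β (φ ψ⁻¹)`, then `φ` and `ψ` are smoothly isotopic in `G`, so that they lie in the
same path component of `G`.

(3) This holds if the first half `(1 - t) ψ + t φ`, `0 ≤ t ≤ 1/2`, of the straight line homotopy
from `ψ` to `φ` consists of immersions.

(4) An element of `G` is smoothly isotopic to the identity if the `n × n` block `∂φ_x/∂x` of its
derivative has no real eigenvalue `≤ 0` at any point, or if its derivative has distance less than
two from the identity (in the operator norm of the maximum norm) at every point. -/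
theorem result (n : ℕ) :
    (∀ β : E n →L[ℝ] E n, Splits β →
      (∃ c : ℝ → SympCt n → SympCt n, Contraction β c) ∧
      ∀ φ ψ : SympCt n, Immersed β (φ * ψ⁻¹) → Connected ψ φ) ∧
    (∀ φ ψ : SympCt n, HalfStraight ψ φ → Connected ψ φ) ∧
    (∀ φ : SympCt n, GoodBlock φ → Connected 1 φ) ∧
    ∀ φ : SympCt n, Near φ → Connected 1 φ := by
  refine ⟨fun β hβ => ⟨⟨Q196.SL.con β hβ, ?_⟩, ?_⟩, ?_, ?_, ?_⟩
  · constructor
    · exact fun φ => Q196.SL.con_zero β hβ φ
    · exact fun t => Q196.SL.con_id β hβ t
    · exact fun φ h => Q196.SL.con_one β hβ φ h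
    · exact fun φ h t => Q196.SL.con_good β hβ t φ h
    · exact fun K φ t h => Q196.SL.con_supp β hβ t φ K h
    · intro P _ _ _ O Φ hO hΦ hg
      exact Q196.SL.con_family β hβ O hO Φ hΦ hg
  · intro φ ψ h
    have h1 := Q196.SL.isotopic β hβ φ ψ h
    exact ⟨h1, h1.joined⟩
  · intro φ ψ h
    have h1 := Q196.SL.isotopic_half φ ψ h
    exact ⟨h1, h1.joined⟩
  · intro φ h
    have h1 : SmoothIsotopic 1 φ := by
      refine Q196.SL.isotopic_block φ ?_
      intro s h0 h1 z a ha
      by_contra hne
      rcases h0.eq_or_lt with rfl | hpos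
      · apply hne
        simpa using ha
      · refine h z (-((1 - s) / s)) a ?_ hne ?_
        · have : 0 ≤ (1 - s) / s := div_nonneg (by linarith) hpos.le
          linarith
        · have h2 : s • (fderiv ℝ φ.map z (a, 0)).1 = -((1 - s) • a) :=
            eq_neg_of_add_eq_zero_right ha
          have h3 : (fderiv ℝ φ.map z (a, 0)).1 = s⁻¹ • (s • (fderiv ℝ φ.map z (a, 0)).1) := by
            rw [smul_smul, inv_mul_cancel₀ hpos.ne', one_smul]
          rw [h3, h2, ← neg_smul, smul_smul]
          congr 1
          field_simp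
    exact ⟨h1, h1.joined⟩
  · intro φ h
    have h1 := Q196.SL.isotopic_norm φ h
    exact ⟨h1, h1.joined⟩

end Pool.Agent.Results.MP_ec5dc5_gt.StraightLineIsotopy
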